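import Pool.Agent.H.MP_4e3057_lc.A
set_option linter.style.longLine false
namespace Pool.Agent.Results.MP_4e3057_lc.No
open Set Cardinal Function Pool.Agent.H.MP_4e3057_lc

theorem result (κ : Cardinal.{0}) (hκ : ℵ₀ < κ) :
    ¬ ∃ (U : Type) (_ : LinearOrder U), #U = κ ∧ ∀ (L : Type) [LinearOrder L], #L = κ →
      ∃ f : L → U, Injective f ∧ Monotone f ∧ @Continuous L U (Preorder.topology L) (Preorder.topology U) f := by
  rintro ⟨U, _, hU, H⟩
  obtain ⟨c, hc, I, M, rfl, h2, h3⟩ := fam_big hκ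
  have : ∀ i, ∃ f : (M i).T → U, Good f := fun i => by
    obtain ⟨f, f1, f2, f3⟩ := H ((M i).T ⊕ₗ κ.ord.ToType) (by
      change #((M i).T ⊕ κ.ord.ToType) = κ
      simpa using add_eq_right hκ.le (h2 i))
    let _ := Preorder.topology ((M i).T ⊕ₗ κ.ord.ToType)
    let _ := Preorder.topology U
    have : OrderTopology ((M i).T ⊕ₗ κ.ord.ToType) := ⟨rfl⟩
    have : OrderTopology U := ⟨rfl⟩
    have g : Good f := ⟨f2.strictMono_of_injective f1,
      fun s a h k => k.isLUB_of_tendsto (f2.monotoneOn s) h f3.continuousWithinAt,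
      fun s a h k => k.isGLB_of_tendsto (f2.monotoneOn s) h f3.continuousWithinAt⟩
    refine ⟨_, g.comp (good_of (f := fun x => toLex (Sum.inl x)) (fun _ _ h => Sum.Lex.inl_lt_inl_iff.2 h) ?_)⟩
    rintro a b (u | u) - j
    · exact ⟨u, rfl⟩
    · exact absurd j Sum.Lex.not_inr_le_inl
  choose f hf using this
  exact hc.not_ge (hU ▸ mk_le_of_injective (f := fun i => f i ⊤) fun i j e => by_contra fun n =>
    h3 i j n U _ _ (hf i) (hf j) e)

end Pool.Agent.Results.MP_4e3057_lc.No
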